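import Pool.Agent.D0H89.OF.Stm3
import Pool.Agent.D0H98.OF.One

/-! Module LOGB of project OF. -/

set_option autoImplicit false

namespace Pool.Agent.D0H9.OF

open Pool.Agent.D0H89.OF Matrix

section

variable {ι K : Type} [Fintype ι] [DecidableEq ι] [Field K]

theorem exK_sub_one (n : Matrix ι ι K) (m : ℕ) (t : K) :
    ∃ B, Commute n B ∧ exK n m t = n * B + 1 := by
  refine ⟨∑ j ∈ Finset.range m, (t ^ (j + 1) * ((j + 1).factorial : K)⁻¹) • n ^ j, ?_, ?_⟩
  · apply Commute.sum_right
    intro j _
    exact ((Commute.refl n).pow_right j).smul_right _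
  · rw [exK, Finset.sum_range_succ', Finset.mul_sum]
    congr 1
    · apply Finset.sum_congr rfl
      intro j _
      rw [mul_smul_comm, pow_succ' n j]
    · simp

theorem nil_exK (n : Matrix ι ι K) (hn : IsNilpotent n) (m : ℕ) (t : K) :
    IsNilpotent (exK n m t - 1) := by
  obtain ⟨B, hB, h⟩ := exK_sub_one n m t
  rw [h, add_sub_cancel_right]
  exact hB.isNilpotent_mul_right hn

theorem mulLeft_nil {A : Matrix ι ι K} (h : IsNilpotent A) :
    IsNilpotent (LinearMap.mulLeft K A) := by
  obtain ⟨k, hk⟩ := h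
  refine ⟨k, ?_⟩
  rw [LinearMap.pow_mulLeft, hk]
  ext1 X
  simp

theorem mulRight_nil {A : Matrix ι ι K} (h : IsNilpotent A) :
    IsNilpotent (LinearMap.mulRight K A) := by
  obtain ⟨k, hk⟩ := h
  refine ⟨k, ?_⟩
  rw [LinearMap.pow_mulRight, hk]
  ext1 X
  simp

/-- `X ↦ A X B` -/
noncomputable def cj (A B : Matrix ι ι K) : Module.End K (Matrix ι ι K) :=
  LinearMap.mulLeft K A * LinearMap.mulRight K B

theorem cj_apply (A B X : Matrix ι ι K) : cj A B X = A * X * B := by
  unfold cj
  rw [Module.End.mul_apply, LinearMap.mulRight_apply, LinearMap.mulLeft_apply, mul_assoc]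

theorem cj_mul (A B A' B' : Matrix ι ι K) : cj A B * cj A' B' = cj (A * A') (B' * B) := by
  ext1 X
  rw [Module.End.mul_apply, cj_apply, cj_apply, cj_apply]
  simp only [mul_assoc]

theorem cj_one : cj (1 : Matrix ι ι K) 1 = 1 := by
  ext1 X
  rw [cj_apply, one_mul, mul_one, Module.End.one_apply]

theorem cj_comm {A B A' B' : Matrix ι ι K} (h : Commute A A') (h' : Commute B B') :
    Commute (cj A B) (cj A' B') := by
  rw [Commute, SemiconjBy, cj_mul, cj_mul, h.eq, h'.eq]

theorem cj_nil {E E' : Matrix ι ι K} (h : IsNilpotent (E - 1)) (h' : IsNilpotent (E' - 1)) :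
    IsNilpotent (cj E E' - 1) := by
  have h1 : cj E E' - 1 = cj (E - 1) E' + cj 1 (E' - 1) := by
    ext1 X
    rw [LinearMap.sub_apply, LinearMap.add_apply, cj_apply, cj_apply, cj_apply,
      Module.End.one_apply]
    noncomm_ring
  have hE : Commute (E - 1) 1 := Commute.one_right _
  have hE' : Commute E' (E' - 1) := (Commute.refl E').sub_right (Commute.one_right _)
  have h2 : IsNilpotent (cj (E - 1) E') := by
    have h3 : cj (E - 1) E' = cj (E - 1) 1 * cj 1 E' := by rw [cj_mul, mul_one, mul_one]
    have h4 : Commute (cj (E - 1) 1) (cj 1 E') := cj_comm (Commute.one_right _) (Commute.one_left _)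
    have h5 : IsNilpotent (cj (E - 1) 1) := by
      have h6 : cj (E - 1) 1 = LinearMap.mulLeft K (E - 1) := by
        ext1 X
        rw [cj_apply, mul_one, LinearMap.mulLeft_apply]
      rw [h6]
      exact mulLeft_nil h
    rw [h3]
    exact h4.isNilpotent_mul_right h5
  have h3 : IsNilpotent (cj 1 (E' - 1)) := by
    have h6 : cj 1 (E' - 1) = LinearMap.mulRight K (E' - 1) := by
      ext1 X
      rw [cj_apply, one_mul, LinearMap.mulRight_apply]
    rw [h6]
    exact mulRight_nil h'
  rw [h1]
  exact (cj_comm hE hE').isNilpotent_add h2 h3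

end

theorem t_LOGB : S_LOGB := by
  intro ι K _ _ _ _ _ s s' n m hss hs hcomm hn W hW
  have hss' : s' * s = 1 := mul_eq_one_comm.mp hss
  have hnn : IsNilpotent n := ⟨m + 1, hn⟩
  set E := exK n m 1 with hE
  set E' := exK n m (-1) with hE'
  have hEE' : E * E' = 1 := by
    rw [hE, hE', ← exK_add n m hn, add_neg_cancel, exK_zero]
  have hsE : Commute s E := exK_commute s n m 1 hcomm
  have hsE' : Commute s E' := exK_commute s n m (-1) hcomm
  have hs'E' : Commute s' E' := by
    have h1 : s' * (s * E') * s' = s' * (E' * s) * s' := by rw [hsE'.eq]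
    have h2 : s' * (s * E') * s' = E' * s' := by rw [← mul_assoc s', hss', one_mul]
    have h3 : s' * (E' * s) * s' = s' * E' := by
      rw [mul_assoc, mul_assoc, hss, mul_one]
    rw [h2, h3] at h1
    exact h1.symm
  have hCs : Module.End.IsSemisimple (cj s s') := Pool.Agent.D0H98.OF.ss_conj hs hss hss'
  have hCE : IsNilpotent (cj E E' - 1) := cj_nil (nil_exK n hnn m 1) (nil_exK n hnn m (-1))
  have hc : Commute (cj s s') (cj E E') := cj_comm hsE hs'E'
  have hc1 : Commute (cj s s') (cj E E' - 1) := hc.sub_right (Commute.one_right _)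
  set T : Module.End K (Matrix ι ι K) := cj s s' * cj E E' with hT
  have hTs : cj s s' * (cj E E' - 1) + cj s s' = T := by
    rw [mul_sub, mul_one, sub_add_cancel]
  have hν : IsNilpotent (cj s s' * (cj E E' - 1)) := hc1.isNilpotent_mul_left hCE
  obtain ⟨n₀, hn₀, s₀, hs₀, hn₀n, hs₀s, hTe⟩ := T.exists_isNilpotent_isSemisimple
  have hcn : Commute n₀ s₀ := by
    have h1 : Commute n₀ T := (Algebra.commute_of_mem_adjoin_singleton_of_commute hn₀
      (Commute.refl T)).symm
    exact Algebra.commute_of_mem_adjoin_singleton_of_commute hs₀ h1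
  have hu := Module.End.isNilpotent_isSemisimple_unique hν hCs hn₀n hs₀s
    (Commute.mul_left (Commute.refl _) hc1.symm) hcn (hTs.trans hTe)
  -- `W` is stable under the conjugation by `s`
  have hTW : ∀ X ∈ W, T X ∈ W := by
    intro X hX
    rw [hT, cj_mul, cj_apply]
    exact hW X hX
  have hadj : ∀ f ∈ Algebra.adjoin K {T}, ∀ X ∈ W, f X ∈ W := by
    intro f hf
    induction hf using Algebra.adjoin_induction with
    | mem x hx =>
      rw [Set.mem_singleton_iff] at hx
      rw [hx]
      exact hTW
    | algebraMap r =>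
      intro X hX
      rw [Module.algebraMap_end_apply]
      exact W.smul_mem r hX
    | add x y _ _ h1 h2 =>
      intro X hX
      rw [LinearMap.add_apply]
      exact W.add_mem (h1 X hX) (h2 X hX)
    | mul x y _ _ h1 h2 =>
      intro X hX
      rw [Module.End.mul_apply]
      exact h1 _ (h2 X hX)
  have hsW : ∀ X ∈ W, s * X * s' ∈ W := by
    intro X hX
    rw [← cj_apply, hu.2]
    exact hadj s₀ hs₀ X hX
  have hs'W : ∀ X ∈ W, s' * X * s ∈ W := by
    have h1 : cj s' s * cj s s' = 1 := by rw [cj_mul, hss', cj_one]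
    have h2 : W ∈ Module.End.invtSubmodule (cj s s') := by
      rw [Module.End.mem_invtSubmodule]
      intro X hX
      rw [Submodule.mem_comap, cj_apply]
      exact hsW X hX
    have h3 := Pool.Agent.D0H98.OF.invt_inv h1 h2
    rw [Module.End.mem_invtSubmodule] at h3
    intro X hX
    have := h3 hX
    rwa [Submodule.mem_comap, cj_apply] at this
  have hEW : ∀ X ∈ W, E * X * E' ∈ W := by
    intro X hX
    have h1 := hs'W _ (hW X hX)
    have h2 : s' * (s * E * X * (E' * s')) * s = E * X * E' := by
      have : s' * (s * E * X * (E' * s')) * s = (s' * s) * E * X * E' * (s' * s) := by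
        simp only [mul_assoc]
      rw [this, hss', one_mul, mul_one]
    rwa [h2] at h1
  have hk : ∀ k : ℕ, ∀ X ∈ W, exK n m (k : K) * X * exK n m (-(k : K)) ∈ W := by
    intro k
    induction k with
    | zero =>
      intro X hX
      rw [Nat.cast_zero, neg_zero, exK_zero, one_mul, mul_one]
      exact hX
    | succ k ih =>
      intro X hX
      have h1 : exK n m ((k + 1 : ℕ) : K) = exK n m (k : K) * E := by
        rw [Nat.cast_succ, exK_add n m hn]
      have h2 : exK n m (-((k + 1 : ℕ) : K)) = E' * exK n m (-(k : K)) := by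
        rw [Nat.cast_succ, neg_add, add_comm, exK_add n m hn]
      have h3 := ih _ (hEW X hX)
      rw [h1, h2]
      have h4 : exK n m (k : K) * E * X * (E' * exK n m (-(k : K))) =
          exK n m (k : K) * (E * X * E') * exK n m (-(k : K)) := by
        simp only [mul_assoc]
      rw [h4]
      exact h3
  refine ⟨hsW, hs'W, ?_⟩
  intro X hX
  by_contra hnot
  obtain ⟨φ, hφ, hWφ⟩ := Submodule.exists_le_ker_of_notMem hnot
  apply hφ
  rcases m with _ | m
  · have : n = 0 := by rw [zero_add, pow_one] at hn; exact hn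
    rw [this, zero_mul, mul_zero, sub_zero, map_zero]
  set a : ℕ → ℕ → K := fun i j => ((i.factorial : K)⁻¹ * ((-1) ^ j * (j.factorial : K)⁻¹)) *
    φ (n ^ i * X * n ^ j) with ha
  set P : Polynomial K := ∑ i ∈ Finset.range (m + 1 + 1), ∑ j ∈ Finset.range (m + 1 + 1),
    Polynomial.C (a i j) * Polynomial.X ^ (i + j) with hP
  have hP0 : P = 0 := by
    apply poly_zero_of_nat
    intro k
    have h1 : φ (exK n (m + 1) (k : K) * X * exK n (m + 1) (-(k : K))) = 0 := hWφ (hk k X hX)
    rw [← h1, hP]
    simp only [exK, Finset.sum_mul, Finset.mul_sum, map_sum, Polynomial.eval_finsetSum]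
    rw [Finset.sum_comm]
    refine Finset.sum_congr rfl fun j _ => Finset.sum_congr rfl fun i _ => ?_
    rw [Polynomial.eval_mul, Polynomial.eval_C, Polynomial.eval_pow, Polynomial.eval_X,
      smul_mul_assoc, smul_mul_assoc, mul_smul_comm, map_smul, map_smul, smul_eq_mul, smul_eq_mul,
      ha, neg_pow, pow_add]
    ring
  have hc1' := congrArg (fun p => Polynomial.coeff p 1) hP0
  simp only [hP, Polynomial.finsetSum_coeff, Polynomial.coeff_C_mul_X_pow, Polynomial.coeff_zero]
    at hc1'
  rw [Finset.sum_range_succ', Finset.sum_range_succ'] at hc1'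
  have h1 : ∑ i ∈ Finset.range m, ∑ j ∈ Finset.range (m + 1 + 1),
      (if 1 = i + 1 + 1 + j then a (i + 1 + 1) j else 0) = 0 := by
    refine Finset.sum_eq_zero fun i _ => Finset.sum_eq_zero fun j _ => ?_
    rw [if_neg (by omega)]
  have h2 : ∑ j ∈ Finset.range (m + 1 + 1), (if 1 = 0 + 1 + j then a (0 + 1) j else 0) = a 1 0 := by
    rw [Finset.sum_eq_single 0]
    · simp
    · intro j _ hj
      rw [if_neg (by omega)]
    · intro h
      exact absurd (Finset.mem_range.mpr (by omega)) h
  have h3 : ∑ j ∈ Finset.range (m + 1 + 1), (if 1 = 0 + j then a 0 j else 0) = a 0 1 := by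
    rw [Finset.sum_eq_single 1]
    · simp
    · intro j _ hj
      rw [if_neg (by omega)]
    · intro h
      exact absurd (Finset.mem_range.mpr (by omega)) h
  rw [h1, h2, h3, zero_add] at hc1'
  simp only [ha, pow_one, pow_zero, one_mul, mul_one, Nat.factorial] at hc1'
  rw [map_sub]
  simpa [sub_eq_add_neg] using hc1'

end Pool.Agent.D0H9.OF
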