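import Pool.Agent.D0H89.OF.Stm3

/-! Module NIL of project OF. -/

set_option autoImplicit false

namespace Pool.Agent.D0H9.OF

open Pool.Agent.D0H89.OF Matrix

theorem t_NIL : S_NIL := by
  intro ι K _ _ _ _ 𝔄 hA n d m hn hnA hd hdn hm
  by_contra hdm
  classical
  have hex : ∃ k, d ^ k = 0 := hdn
  set k₀ := Nat.find hex with hk₀
  have h1 : d ^ k₀ = 0 := Nat.find_spec hex
  have h2 : m < k₀ := by
    by_contra h
    exact hdm (pow_eq_zero_of_le (not_lt.mp h) h1)
  obtain ⟨k, hk⟩ : ∃ k, k₀ = k + 1 := ⟨k₀ - 1, by omega⟩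
  have h3 : d ^ k ≠ 0 := Nat.find_min hex (by omega)
  have h4 : (n + d) ^ k = 0 := pow_eq_zero_of_le (by omega) hm
  have hcom : Commute n d := hnA d hd
  have hc1 : Commute (n + d) d := hcom.add_left (Commute.refl d)
  have h5 := hc1.geom_sum₂_mul k
  rw [h4, add_sub_cancel_right, zero_sub] at h5
  set Y := ∑ i ∈ Finset.range k, (n + d) ^ i * d ^ (k - 1 - i) with hY
  obtain ⟨e, he, hte⟩ := hA (d ^ k) (𝔄.pow_mem hd k) h3
  have hen : Commute n e := hnA e he
  have hYn : Commute Y n := by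
    rw [hY]
    apply Commute.sum_left
    intro i _
    exact ((((Commute.refl n).add_left hcom.symm)).pow_left i).mul_left (hcom.symm.pow_left _)
  have hnil : IsNilpotent ((Y * e) * n) :=
    (hYn.mul_left hen.symm).isNilpotent_mul_left hn
  have htr : ((Y * e) * n).trace = 0 :=
    (Matrix.isNilpotent_trace_of_isNilpotent hnil).eq_zero
  apply hte
  have h6 : d ^ k * e = -((Y * e) * n) := by
    rw [mul_assoc Y e n, ← hen.eq, ← mul_assoc, h5]
    rw [neg_mul, neg_neg]
  rw [h6, Matrix.trace_neg, htr, neg_zero]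

end Pool.Agent.D0H9.OF
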